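import Pool.Agent.W957.CH.StmB

/-! CH-EC4: number of end clumps (for helper957, project CH). -/

namespace Pool.Agent.W33.CH

open Finset Pool.Agent.W957.CH

theorem exists_inj {α : Type*} (s : Finset α) (k : ℕ) (h : k ≤ s.card) :
    ∃ f : Fin k → α, Function.Injective f ∧ ∀ i, f i ∈ s := by
  refine ⟨fun i => (s.equivFin.symm (Fin.castLE h i)).1, ?_, fun i => (s.equivFin.symm _).2⟩
  intro i j hij
  have h1 := s.equivFin.symm.injective (Subtype.ext hij)
  exact Fin.castLE_injective h h1

theorem mem_nbr {V : Type} {G : SimpleGraph V} {A P : Finset V} {w : V} :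
    w ∈ nbr G A P ↔ w ∈ A ∧ w ∉ P ∧ ∃ p ∈ P, G.Adj p w := by
  classical
  unfold nbr
  exact Finset.mem_filter

theorem mem_att {V : Type} {G : SimpleGraph V} {c : ℕ → V} {a b : ℕ} {W : Finset V} {i : ℕ} :
    i ∈ att G c a b W ↔ (a ≤ i ∧ i ≤ b) ∧ ∃ v ∈ W, G.Adj v (c i) := by
  classical
  unfold att
  rw [← Finset.mem_Icc]
  exact Finset.mem_filter

section
variable {V : Type} [DecidableEq V] {X : Cx V} {n : ℕ} {c : ℕ → V} {W T S : Finset V} {v : V}

theorem ec_disB (hPc : Pc X n c W T) (hS : EC X.G W T S) : Disjoint S X.B := by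
  rw [Finset.disjoint_left]
  intro x hx hB
  have h1 : x ∈ T := hPc.bd (Finset.mem_inter.mpr ⟨hB, hS.1.2.1 hx⟩)
  exact Finset.disjoint_left.mp hS.1.2.2.1 hx h1

omit [DecidableEq V] in
theorem ec_vW (hv : nbr X.G W S = {v}) : v ∈ W ∧ v ∉ S ∧ ∃ p ∈ S, X.G.Adj p v := by
  have h1 : v ∈ nbr X.G W S := by rw [hv]; exact Finset.mem_singleton_self v
  exact mem_nbr.mp h1

theorem ec_vA (hPc : Pc X n c W T) (hv : nbr X.G W S = {v}) : v ∈ nbr X.G X.A S := by
  obtain ⟨h1, h2, h3⟩ := ec_vW hv
  exact mem_nbr.mpr ⟨hPc.sub h1, h2, h3⟩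

/-- neighbours other than `v` are on the cycle -/
theorem ec_cyc (hPc : Pc X n c W T) (hS : EC X.G W T S) (hv : nbr X.G W S = {v}) {w : V}
    (hw : w ∈ nbr X.G X.A S) (hne : w ≠ v) : ∃ i, i < n ∧ c i = w ∧ ∃ p ∈ S, X.G.Adj p (c i) := by
  obtain ⟨h1, h2, p, hp, hpw⟩ := mem_nbr.mp hw
  have hpW : p ∈ W := hS.1.2.1 hp
  have hpT : p ∉ T := Finset.disjoint_left.mp hS.1.2.2.1 hp
  have h3 : w ∈ nbr X.G X.A {p} := by
    refine mem_nbr.mpr ⟨h1, ?_, p, Finset.mem_singleton_self p, hpw⟩
    rw [Finset.mem_singleton]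
    rintro rfl
    exact h2 hp
  have h4 := hPc.cl p hpW hpT h3
  rcases Finset.mem_union.mp h4 with h5 | h5
  · exfalso
    have h6 : w ∈ nbr X.G W S := mem_nbr.mpr ⟨h5, h2, p, hp, hpw⟩
    rw [hv, Finset.mem_singleton] at h6
    exact hne h6
  · unfold img at h5
    obtain ⟨i, hi, rfl⟩ := Finset.mem_image.mp h5
    exact ⟨i, Finset.mem_range.mp hi, rfl, p, hp, hpw⟩

theorem ec_three (hOk : Ok X) (hPc : Pc X n c W T) (hS : EC X.G W T S) :
    3 ≤ (nbr X.G X.A S).card := by
  refine (hOk.reg S (hS.1.2.1.trans hPc.sub) hS.1.1 (ec_disB hPc hS) ?_).1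
  intro hA
  apply hS.1.2.2.2.2
  intro w hw
  have h1 : w ∈ S ∪ nbr X.G X.A S := by rw [hA]; exact hPc.sub hw
  rcases Finset.mem_union.mp h1 with h2 | h2
  · exact Finset.mem_union_left _ h2
  · obtain ⟨-, h3, h4⟩ := mem_nbr.mp h2
    exact Finset.mem_union_right _ (mem_nbr.mpr ⟨hw, h3, h4⟩)

end

theorem t_EC4 (h1 : S_MARK) (h2 : S_SEG) (h3 : S_EC1) (h4 : S_EC2) (h5 : S_EC3) (h6 : S_HUB) :
    S_EC4 := by
  intro V _ X n c W T E hOk hG hPc hE
  classical
  have : Nonempty V := ⟨c 0⟩
  have hv0 : ∀ S ∈ E, ∃ v, nbr X.G W S = {v} := fun S hS =>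
    Finset.card_eq_one.mp (hE S hS).1.2.2.2.1
  choose! vf hvf using hv0
  obtain ⟨M, hM⟩ := h1 V X n c hOk hG
  obtain ⟨Sg, hSgc, hSg, hcov⟩ := h2 n M hM.lt
  have hmu : M.card + 1 ≤ mu X.m := hM.card
  -- length of the cycle
  have hn : 100 * mu X.m + 100 ≤ n := by
    have := hOk.big
    have := hG.len
    omega
  -- free intervals
  have hfree : ∀ p ∈ Sg, Free X.G n c p.1 p.2 := by
    intro p hp i hi hi' hch
    have h7 := (hSg p hp).2.2 i hi hi'
    exact h7 (hM.ce i (lt_of_le_of_lt hi' (hSg p hp).2.1) hch)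
  have hgap : ∀ p ∈ Sg, 2 * (p.2 - p.1) ≤ n := by
    intro p hp
    have := hM.gap p.1 p.2 (hSg p hp).1 (hSg p hp).2.1 (hSg p hp).2.2
    omega
  -- hub positions
  set Hb : Finset ℕ := M ∪ (Sg.filter (fun p => (att X.G c p.1 p.2 W).card ≤ 2)).biUnion
    (fun p => att X.G c p.1 p.2 W) with hHb
  have hHbc : Hb.card ≤ 3 * mu X.m := by
    have h7 : ((Sg.filter (fun p => (att X.G c p.1 p.2 W).card ≤ 2)).biUnion
        (fun p => att X.G c p.1 p.2 W)).card ≤ Sg.card * 2 := by
      calc _ ≤ (Sg.filter (fun p => (att X.G c p.1 p.2 W).card ≤ 2)).card * 2 :=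
            Finset.card_biUnion_le_card_mul _ _ _ fun p hp => (Finset.mem_filter.mp hp).2
        _ ≤ Sg.card * 2 := Nat.mul_le_mul_right _ (Finset.card_filter_le _ _)
    have h8 := Finset.card_union_le M
      ((Sg.filter (fun p => (att X.G c p.1 p.2 W).card ≤ 2)).biUnion
        (fun p => att X.G c p.1 p.2 W))
    rw [← hHb] at h8
    omega
  set HB : Finset V := Hb.image c with hHB
  have hHBc : HB.card ≤ 3 * mu X.m := Finset.card_image_le.trans hHbc
  -- the hub set of an end clump
  set hf : Finset V → Finset V := fun S => (nbr X.G X.A S).erase (vf S) with hhf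
  have hsub : ∀ S ∈ E, hf S ⊆ HB := by
    intro S hS w hw
    obtain ⟨hne, hw'⟩ := Finset.mem_erase.mp hw
    obtain ⟨i, hi, rfl, p, hp, hpi⟩ := ec_cyc hPc (hE S hS) (hvf S hS) hw' hne
    apply Finset.mem_image_of_mem
    by_cases hiM : i ∈ M
    · exact Finset.mem_union_left _ hiM
    · obtain ⟨q, hq, hq1, hq2⟩ := hcov i hi hiM
      apply Finset.mem_union_right
      refine Finset.mem_biUnion.mpr ⟨q, Finset.mem_filter.mpr ⟨hq, ?_⟩,
        mem_att.mpr ⟨⟨hq1, hq2⟩, p, (hE S hS).1.2.1 hp, hpi⟩⟩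
      by_contra hc
      exact h5 V X n c q.1 q.2 W T S hOk hG hPc (hSg q hq).1 (hSg q hq).2.1 (hfree q hq)
        (hgap q hq) (by omega) (hE S hS) p hp i hq1 hq2 hpi
  have hins : ∀ S ∈ E, nbr X.G X.A S = insert (vf S) (hf S) := fun S hS =>
    (Finset.insert_erase (ec_vA hPc (hvf S hS))).symm
  have hcard : ∀ S ∈ E, 2 ≤ (hf S).card := by
    intro S hS
    have h7 := ec_three hOk hPc (hE S hS)
    have h8 := Finset.card_erase_of_mem (ec_vA hPc (hvf S hS))
    have h9 : (hf S).card = (nbr X.G X.A S).card - 1 := h8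
    omega
  -- counting
  have hfib : ∀ H ∈ E.image hf, (E.filter (fun S => hf S = H)).card ≤ 9 * mu X.m := by
    intro H hH
    obtain ⟨S0, hS0, rfl⟩ := Finset.mem_image.mp hH
    set H := hf S0 with hHdef
    have hHc : H.card ≤ 3 * mu X.m := (Finset.card_le_card (hsub S0 hS0)).trans hHBc
    have hH2 : 2 ≤ H.card := hcard S0 hS0
    -- (a)
    have ha : ∀ v ∈ (E.filter (fun S => hf S = H)).image vf,
        ((E.filter (fun S => hf S = H)).filter (fun S => vf S = v)).card ≤ 3 := by
      intro v _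
      by_contra hc
      obtain ⟨Y, hYi, hY⟩ := exists_inj ((E.filter (fun S => hf S = H)).filter
        (fun S => vf S = v)) 4 (by omega)
      have hYE : ∀ i, Y i ∈ E := fun i =>
        (Finset.mem_filter.mp (Finset.mem_filter.mp (hY i)).1).1
      have hYH : ∀ i, hf (Y i) = H := fun i =>
        (Finset.mem_filter.mp (Finset.mem_filter.mp (hY i)).1).2
      have hYv : ∀ i, vf (Y i) = v := fun i => (Finset.mem_filter.mp (hY i)).2
      refine hOk.mnl Y (fun i => ⟨(hE _ (hYE i)).1.1,
        (hE _ (hYE i)).1.2.1.trans hPc.sub, ec_disB hPc (hE _ (hYE i))⟩) ?_ ?_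
      · intro i j hij
        exact (h4 V X.G W T (Y i) (Y j) _ _ hPc.con (hE _ (hYE i)) (hE _ (hYE j))
          (fun h => hij (hYi h)) (hvf _ (hYE i)) (hvf _ (hYE j))).1
      · intro i j
        rw [hins _ (hYE i), hins _ (hYE j), hYH i, hYH j, hYv i, hYv j]
    -- (b)
    have hb : ((E.filter (fun S => hf S = H)).image vf).card ≤ H.card := by
      by_contra hc
      obtain ⟨v, hvi, hvm⟩ := exists_inj ((E.filter (fun S => hf S = H)).image vf) (H.card + 1)
        (by omega)
      have hex : ∀ i, ∃ S, S ∈ E ∧ hf S = H ∧ vf S = v i := by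
        intro i
        obtain ⟨S, hS, hSv⟩ := Finset.mem_image.mp (hvm i)
        obtain ⟨h7, h8⟩ := Finset.mem_filter.mp hS
        exact ⟨S, h7, h8, hSv⟩
      choose S hSE hSH hSv using hex
      have hnb : ∀ i, nbr X.G W (S i) = {v i} := fun i => by
        rw [hvf _ (hSE i), hSv i]
      have hSne : ∀ i j, i ≠ j → S i ≠ S j := by
        intro i j hij h
        apply hij
        apply hvi
        rw [← hSv i, ← hSv j, h]
      -- hubs
      set a : Fin H.card → V := fun i => (H.equivFin.symm i).1 with hadef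
      have hai : Function.Injective a := by
        intro i j hij
        exact H.equivFin.symm.injective (Subtype.ext hij)
      have haH : Finset.univ.image a = H := by
        ext x
        constructor
        · intro hx
          obtain ⟨i, -, rfl⟩ := Finset.mem_image.mp hx
          exact (H.equivFin.symm i).2
        · intro hx
          refine Finset.mem_image.mpr ⟨H.equivFin ⟨x, hx⟩, Finset.mem_univ _, ?_⟩
          simp [hadef]
      have haM : ∀ i, a i ∈ H := fun i => (H.equivFin.symm i).2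
      have hHnb : ∀ i, nbr X.G X.A (S i) = insert (v i) H := fun i => by
        rw [hins _ (hSE i), hSH i, hSv i]
      have hHerase : ∀ i, H = (nbr X.G X.A (S i)).erase (v i) := fun i => by
        rw [← hSv i]; exact (hSH i).symm
      have hvW : ∀ i, v i ∈ W := fun i => (ec_vW (hnb i)).1
      have hvS : ∀ i, v i ∉ S i := fun i => (ec_vW (hnb i)).2.1
      have hSW : ∀ i, S i ⊆ W := fun i => (hE _ (hSE i)).1.2.1
      have hec1 : ∀ i, _ := fun i => h3 V X.G W T (S i) (v i) hPc.con (hE _ (hSE i)) (hnb i)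
      have hdis : ∀ i j, i ≠ j → Disjoint (S i) (S j) ∧ v i ∉ S j := fun i j hij =>
        h4 V X.G W T (S i) (S j) (v i) (v j) hPc.con (hE _ (hSE i)) (hE _ (hSE j))
          (hSne i j hij) (hnb i) (hnb j)
      refine h6 V X H.card a S v hOk hH2 ?_ hai ?_ ?_ ?_ ?_ ?_ ?_ ?_
      · have := hOk.big
        omega
      · intro i
        have h7 := haM i
        rw [hHerase 0] at h7
        exact (mem_nbr.mp (Finset.mem_of_mem_erase h7)).1
      · intro i
        exact ⟨(hSW i).trans hPc.sub, ec_disB hPc (hE _ (hSE i)), hPc.sub (hvW i), hvS i,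
          (hec1 i).1⟩
      · intro i
        rw [haH]
        exact hHnb i
      · intro i j hij
        rw [Finset.disjoint_insert_left, Finset.disjoint_insert_right, Finset.mem_insert,
          not_or]
        exact ⟨⟨fun h => hij (hvi h), (hdis i j hij).2⟩, (hdis j i (Ne.symm hij)).2,
          (hdis i j hij).1⟩
      · intro i j
        have h7 := haM j
        rw [hHerase i] at h7
        obtain ⟨h8, h9⟩ := Finset.mem_erase.mp h7
        rw [Finset.mem_insert, not_or]
        exact ⟨h8, (mem_nbr.mp h9).2.1⟩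
      · intro i
        exact (hec1 i).2.2
      · -- a vertex of the cycle which is not a hub
        have hCc : (img n c).card = n := by
          unfold img
          rw [Finset.card_image_of_injOn, Finset.card_range]
          intro i hi j hj hij
          exact hG.cr.inj i j (by simpa using hi) (by simpa using hj) hij
        have h7 : ¬ img n c ⊆ H := by
          intro h
          have := Finset.card_le_card h
          omega
        obtain ⟨w, hw, hwH⟩ := Finset.not_subset.mp h7
        have hwA : w ∈ X.A := by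
          unfold img at hw
          obtain ⟨i, hi, rfl⟩ := Finset.mem_image.mp hw
          exact hG.sub i (Finset.mem_range.mp hi)
        have hwW : w ∉ W := fun h => Finset.disjoint_left.mp hPc.dis h hw
        refine ⟨w, hwA, by rw [haH]; exact hwH, ?_⟩
        intro i
        rw [Finset.mem_insert, not_or]
        refine ⟨?_, fun h => hwW (hSW i h)⟩
        rintro rfl
        exact hwW (hvW i)
    have h7 := Finset.card_le_mul_card_image (E.filter (fun S => hf S = H)) 3 ha
    calc (E.filter (fun S => hf S = H)).card ≤ _ := h7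
      _ ≤ 3 * H.card := Nat.mul_le_mul_left _ hb
      _ ≤ 9 * mu X.m := by omega
  have h7 := Finset.card_le_mul_card_image E (9 * mu X.m) hfib
  have h8 : (E.image hf).card ≤ 2 ^ (3 * mu X.m) := by
    have h9 : E.image hf ⊆ HB.powerset := by
      intro H hH
      obtain ⟨S, hS, rfl⟩ := Finset.mem_image.mp hH
      exact Finset.mem_powerset.mpr (hsub S hS)
    calc (E.image hf).card ≤ HB.powerset.card := Finset.card_le_card h9
      _ = 2 ^ HB.card := Finset.card_powerset HB
      _ ≤ 2 ^ (3 * mu X.m) := Nat.pow_le_pow_right (by norm_num) hHBc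
  unfold Lam
  calc E.card ≤ 9 * mu X.m * (E.image hf).card := h7
    _ ≤ 9 * mu X.m * 2 ^ (3 * mu X.m) := Nat.mul_le_mul_left _ h8
    _ = 2 ^ (3 * mu X.m) * (9 * mu X.m) := Nat.mul_comm _ _

end Pool.Agent.W33.CH
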