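import Pool.Agent.W957.CH.Stm2

/-! CH-4C (for helper957, project CH). -/

namespace Pool.Agent.W33.CHF

open Finset Pool.Agent.W957.CH

theorem mem_nbr {V : Type} {G : SimpleGraph V} {A P : Finset V} {w : V} :
    w ∈ nbr G A P ↔ w ∈ A ∧ w ∉ P ∧ ∃ p ∈ P, G.Adj p w := by
  classical
  unfold nbr
  exact Finset.mem_filter

section
variable {V : Type} {G : SimpleGraph V} {n : ℕ} {c : ℕ → V}

theorem pf_append {a b a' b' : V} {l1 l2 : List V} (h1 : PF G a b l1) (h2 : PF G a' b' l2)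
    (h : G.Adj b a') (hd : ∀ x ∈ l1, x ∉ l2) : PF G a b' (l1 ++ l2) := by
  obtain ⟨⟨h3, h4⟩, h5, h6⟩ := h1
  obtain ⟨⟨h7, h8⟩, h9, h10⟩ := h2
  refine ⟨⟨?_, ?_⟩, ?_, ?_⟩
  · rw [List.nodup_append']
    exact ⟨h3, h7, fun x hx hx' => hd x hx hx'⟩
  · rw [List.isChain_append]
    refine ⟨h4, h8, ?_⟩
    intro x hx y hy
    rw [h6] at hx
    rw [h9] at hy
    obtain rfl : b = x := by simpa using hx
    obtain rfl : a' = y := by simpa using hy
    exact h
  · rw [List.head?_append, h5]; rfl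
  · rw [List.getLast?_append, h10]; rfl

theorem pf_reverse {a b : V} {l : List V} (h : PF G a b l) : PF G b a l.reverse := by
  obtain ⟨⟨h3, h4⟩, h5, h6⟩ := h
  refine ⟨⟨List.nodup_reverse.mpr h3, ?_⟩, ?_, ?_⟩
  · rw [List.isChain_reverse]
    exact h4.imp fun x y hxy => hxy.symm
  · rw [List.head?_reverse, h6]
  · rw [List.getLast?_reverse, h5]

theorem pf_range (hc : CR G n c) (a : ℕ) : ∀ k, a + k < n →
    PF G (c a) (c (a + k)) ((List.range' a (k + 1)).map c) := by
  intro k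
  induction k with
  | zero =>
    intro _
    refine ⟨⟨?_, ?_⟩, ?_, ?_⟩ <;> simp [List.range']
  | succ k ih =>
    intro hk
    rw [List.range'_1_concat, List.map_append]
    have h1 := ih (by omega)
    refine pf_append h1 (a' := c (a + (k + 1))) ?_ (hc.adj (a + k) (by omega)) ?_
    · refine ⟨⟨?_, ?_⟩, ?_, ?_⟩ <;> simp
    · intro x hx hx'
      obtain ⟨i, hi, rfl⟩ := List.mem_map.mp hx
      rw [List.mem_range'_1] at hi
      have h2 : c i = c (a + (k + 1)) := by simpa using hx'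
      have h3 := hc.inj _ _ (by omega) (by omega) h2
      omega

theorem sg_pf (hc : CR G n c) {a b : ℕ} (hab : a ≤ b) (hb : b < n) :
    PF G (c a) (c b) (sg c a b) := by
  obtain ⟨k, rfl⟩ := Nat.exists_eq_add_of_le hab
  have h1 := pf_range hc a k hb
  unfold sg
  have h2 : a + k + 1 - a = k + 1 := by omega
  rw [h2]
  exact h1

theorem mem_sg {a b : ℕ} {x : V} : x ∈ sg c a b ↔ ∃ i, a ≤ i ∧ i ≤ b ∧ c i = x := by
  unfold sg
  rw [List.mem_map]
  constructor
  · rintro ⟨i, hi, rfl⟩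
    rw [List.mem_range'_1] at hi
    exact ⟨i, hi.1, by omega, rfl⟩
  · rintro ⟨i, h1, h2, rfl⟩
    refine ⟨i, ?_, rfl⟩
    rw [List.mem_range'_1]
    omega

theorem sg_length (a b : ℕ) : (sg c a b).length = b + 1 - a := by
  unfold sg
  rw [List.length_map, List.length_range']

theorem mem_img [DecidableEq V] {x : V} : x ∈ img n c ↔ ∃ i, i < n ∧ c i = x := by
  unfold img
  simp

end

theorem t_4C (h1 : S_PR2) (h2 : S_X) (h3 : S_NC) (h4 : S_PC0) : S_4C := by
  intro V _ X n c τ σ i1 i2 j1 j2 K1 K2 hS hi hij hj hlen hci hcj hC1 hC2 hne hA1 hB1 hA2 hB2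
  have hOk := hS.ok
  have hG := hS.good
  have hcr := hG.cr
  obtain ⟨-, hPC2, -, hPC4⟩ := h4 V X n c hOk hG
  obtain ⟨R1, hR1, hR1K⟩ := hPC4 i1 j1 K1 hC1 hA1 hB1
  obtain ⟨R2, hR2, hR2K⟩ := hPC4 i2 j2 K2 hC2 hA2 hB2
  have hj2n : j2 < n := (hcj j2 hj.le le_rfl).1
  have hR12 : ∀ x ∈ R1, x ∉ R2 := fun x hx hx' =>
    hne (hPC2 K1 K2 x hC1 hC2 (hR1K x hx) (hR2K x hx'))
  have hRer := h1 V X n c i1 i2 j1 j2 R1 R2 hG hi hij hj hj2n
    (fun p hp hp' => (hci p hp hp').2.2.1) (fun p hp hp' => (hcj p hp hp').2.2.1) hR1 hR2 hR12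
  set Rm : Finset ℕ := Ioo i1 i2 ∪ Ioo j1 j2 with hRm
  set l : List V := sg c 0 i1 ++ R1 ++ (sg c i2 j1).reverse ++ R2 ++ sg c j2 (n - 1) with hl
  have hRmc : Rm.card ≤ (i2 - i1) + (j2 - j1) := by
    have := Finset.card_union_le (Ioo i1 i2) (Ioo j1 j2)
    rw [Nat.card_Ioo, Nat.card_Ioo, ← hRm] at this
    omega
  have hRmCl : ∀ r ∈ Rm, Cl X n c r := by
    intro r hr
    rcases Finset.mem_union.mp hr with h | h
    · rw [Finset.mem_Ioo] at h
      exact hci r h.1.le h.2.le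
    · rw [Finset.mem_Ioo] at h
      exact hcj r h.1.le h.2.le
  -- the components of the new cycle
  have hnew : ∀ p q, (∀ r, p < r → r < q → r ∈ Rm) → ∃ K : Finset V, K ⊆ X.A ∧ Disjoint K X.B ∧
      (nbr X.G X.A K).card ≤ beta X.m 0 ∧ (∀ r, p < r → r < q → c r ∈ K) ∧
      ∀ r, r < n → c r ∈ K → r ∈ Rm := by
    intro p q hpq
    by_cases h : p + 1 < q
    · obtain ⟨K, -, hKA, hKc, hKl, hKB, -, hKn⟩ := h3 V X n c l Rm (R1 ++ R2) (p + 1) (q - 1)
        hOk hG hS.Ln hRer (by omega) (by omega) (fun r hr hr' => hpq r (by omega) (by omega))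
        hRmCl
      refine ⟨K, hKA, hKB, hKn, fun r hr hr' => hKc r (by omega) (by omega), ?_⟩
      intro r hr hrK
      by_contra hc
      have h5 : c r ∈ l := (hRer.mem (c r)).mpr (Or.inl ⟨r, hr, hc, rfl⟩)
      exact Finset.disjoint_left.mp hKl hrK (List.mem_toFinset.mpr h5)
    · refine ⟨∅, Finset.empty_subset _, Finset.disjoint_empty_left _, ?_, ?_, ?_⟩
      · have h5 : nbr X.G X.A ∅ = ∅ := by
          rw [Finset.eq_empty_iff_forall_notMem]
          intro w hw
          obtain ⟨-, -, p', hp', -⟩ := mem_nbr.mp hw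
          exact absurd hp' (Finset.notMem_empty _)
        rw [h5, Finset.card_empty]
        exact Nat.zero_le _
      · intro r hr hr'
        omega
      · intro r _ hr
        exact absurd hr (Finset.notMem_empty _)
  obtain ⟨K3, hK3A, hK3B, hK3n, hK3c, hK3m⟩ := hnew i1 i2 (fun r hr hr' =>
    Finset.mem_union_left _ (Finset.mem_Ioo.mpr ⟨hr, hr'⟩))
  obtain ⟨K4, hK4A, hK4B, hK4n, hK4c, hK4m⟩ := hnew j1 j2 (fun r hr hr' =>
    Finset.mem_union_right _ (Finset.mem_Ioo.mpr ⟨hr, hr'⟩))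
  -- old components
  have hold : ∀ K i, Comp X n c K → At X c K i → Cl X n c i → Disjoint K X.B ∧
      (nbr X.G X.A K).card ≤ beta X.m 0 := by
    intro K i hK hAt hCl
    have hB := hCl.2.2.2 K hK hAt
    refine ⟨hB, ?_⟩
    have h5 := h2 V X n c K 0 hOk hG hK.1 hK.2.1 hK.2.2.1 (by
      rw [Finset.sdiff_eq_empty_iff_subset.mpr hK.2.2.2, Finset.disjoint_iff_inter_eq_empty.mp hB,
        Finset.card_empty])
    rwa [Finset.inter_eq_left.mpr hK.2.2.2] at h5
  obtain ⟨hK1B, hK1n⟩ := hold K1 i1 hC1 hA1 (hci i1 le_rfl hi.le)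
  obtain ⟨hK2B, hK2n⟩ := hold K2 i2 hC2 hA2 (hci i2 hi.le le_rfl)
  set P : Finset V := K1 ∪ K2 ∪ K3 ∪ K4 with hP
  have hmP : ∀ x, x ∈ P ↔ x ∈ K1 ∨ x ∈ K2 ∨ x ∈ K3 ∨ x ∈ K4 := by
    intro x
    rw [hP, Finset.mem_union, Finset.mem_union, Finset.mem_union, or_assoc, or_assoc]
  have hPA : P ⊆ X.A := by
    intro x hx
    rcases (hmP x).mp hx with h | h | h | h
    · exact hC1.2.1 h
    · exact hC2.2.1 h
    · exact hK3A h
    · exact hK4A h
  have hPB : Disjoint P X.B := by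
    rw [Finset.disjoint_left]
    intro x hx hB
    rcases (hmP x).mp hx with h | h | h | h
    · exact Finset.disjoint_left.mp hK1B h hB
    · exact Finset.disjoint_left.mp hK2B h hB
    · exact Finset.disjoint_left.mp hK3B h hB
    · exact Finset.disjoint_left.mp hK4B h hB
  have hPne : P.Nonempty := by
    obtain ⟨x, hx⟩ := hC1.1.1
    exact ⟨x, (hmP x).mpr (Or.inl hx)⟩
  have hPn : (nbr X.G X.A P).card ≤ 4 * beta X.m 0 := by
    have h5 : nbr X.G X.A P ⊆ nbr X.G X.A K1 ∪ nbr X.G X.A K2 ∪ nbr X.G X.A K3 ∪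
        nbr X.G X.A K4 := by
      intro w hw
      obtain ⟨hwA, hwP, p, hp, hpw⟩ := mem_nbr.mp hw
      rw [hmP] at hwP
      push Not at hwP
      rw [Finset.mem_union, Finset.mem_union, Finset.mem_union]
      rcases (hmP p).mp hp with h | h | h | h
      · exact Or.inl (Or.inl (Or.inl (mem_nbr.mpr ⟨hwA, hwP.1, p, h, hpw⟩)))
      · exact Or.inl (Or.inl (Or.inr (mem_nbr.mpr ⟨hwA, hwP.2.1, p, h, hpw⟩)))
      · exact Or.inl (Or.inr (mem_nbr.mpr ⟨hwA, hwP.2.2.1, p, h, hpw⟩))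
      · exact Or.inr (mem_nbr.mpr ⟨hwA, hwP.2.2.2, p, h, hpw⟩)
    have h6 := Finset.card_le_card h5
    have h7 := Finset.card_union_le (nbr X.G X.A K1 ∪ nbr X.G X.A K2 ∪ nbr X.G X.A K3)
      (nbr X.G X.A K4)
    have h8 := Finset.card_union_le (nbr X.G X.A K1 ∪ nbr X.G X.A K2) (nbr X.G X.A K3)
    have h9 := Finset.card_union_le (nbr X.G X.A K1) (nbr X.G X.A K2)
    omega
  have hbeta : beta X.m 0 ≤ bb X.m τ := by
    have h5 : beta X.m 0 ≤ beta X.m (4 * τ + 8) := by
      unfold beta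
      gcongr <;> omega
    unfold bb
    omega
  have hbb8 : 8 ≤ bb X.m τ := by
    unfold bb
    omega
  have hPneA : P ∪ nbr X.G X.A P ≠ X.A := by
    intro hA
    have h5 : img n c ⊆ Rm.image c ∪ nbr X.G X.A P := by
      intro x hx
      obtain ⟨r, hr, rfl⟩ := mem_img.mp hx
      have h6 : c r ∈ P ∪ nbr X.G X.A P := by rw [hA]; exact hG.sub r hr
      rcases Finset.mem_union.mp h6 with h7 | h7
      · apply Finset.mem_union_left
        apply Finset.mem_image_of_mem
        rcases (hmP _).mp h7 with h | h | h | h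
        · exact absurd hx (Finset.disjoint_left.mp hC1.2.2.1 h)
        · exact absurd hx (Finset.disjoint_left.mp hC2.2.2.1 h)
        · exact hK3m r hr h
        · exact hK4m r hr h
      · exact Finset.mem_union_right _ h7
    have h6 := Finset.card_le_card h5
    have h7 := Finset.card_union_le (Rm.image c) (nbr X.G X.A P)
    have h8 : (Rm.image c).card ≤ Rm.card := Finset.card_image_le
    have h9 : (img n c).card = n := by
      unfold img
      rw [Finset.card_image_of_injOn, Finset.card_range]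
      intro i hi' j hj' hij'
      exact hcr.inj i j (by simpa using hi') (by simpa using hj') hij'
    have h10 := hS.big
    omega
  -- the cycle
  obtain ⟨⟨u1, v1, hp1, ha1, hb1⟩, hE1⟩ := hR1
  obtain ⟨⟨u2, v2, hp2, ha2, hb2⟩, hE2⟩ := hR2
  have hi2n : i2 < n := by omega
  have hs1 := sg_pf hcr hi.le hi2n
  have hs2 := sg_pf hcr hj.le hj2n
  have himg : ∀ {a b : ℕ} {x : V}, b < n → x ∈ sg c a b → x ∈ img n c := by
    intro a b x hb hx
    obtain ⟨i, -, hi', rfl⟩ := mem_sg.mp hx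
    exact mem_img.mpr ⟨i, by omega, rfl⟩
  have hq1 : PF X.G (c i1) v2 (sg c i1 i2 ++ R2) := pf_append hs1 hp2 ha2
    (fun x hx hx' => (hE2 x hx').2 (himg hi2n hx))
  have hq2 : PF X.G (c i1) (c j1) (sg c i1 i2 ++ R2 ++ (sg c j1 j2).reverse) := by
    refine pf_append hq1 (pf_reverse hs2) hb2 ?_
    intro x hx hx'
    rw [List.mem_reverse] at hx'
    rcases List.mem_append.mp hx with h | h
    · obtain ⟨i, -, h5, rfl⟩ := mem_sg.mp h
      obtain ⟨j, h6, h7, h8⟩ := mem_sg.mp hx'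
      have := hcr.inj _ _ (by omega) (by omega) h8
      omega
    · exact (hE2 x h).2 (himg hj2n hx')
  have hq3 : PF X.G (c i1) u1 (sg c i1 i2 ++ R2 ++ (sg c j1 j2).reverse ++ R1.reverse) := by
    refine pf_append hq2 (pf_reverse hp1) hb1.symm ?_
    intro x hx hx'
    rw [List.mem_reverse] at hx'
    rcases List.mem_append.mp hx with h | h
    · rcases List.mem_append.mp h with h | h
      · exact (hE1 x hx').2 (himg hi2n h)
      · exact hR12 x hx' h
    · rw [List.mem_reverse] at h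
      exact (hE1 x hx').2 (himg hj2n h)
  set l' : List V := sg c i1 i2 ++ R2 ++ (sg c j1 j2).reverse ++ R1.reverse with hl'
  have hlen' : (i2 - i1) + (j2 - j1) + 2 ≤ l'.length := by
    rw [hl', List.length_append, List.length_append, List.length_append, List.length_reverse,
      List.length_reverse, sg_length, sg_length]
    omega
  have hcyc : Cyc X.G l' := by
    refine ⟨by omega, hq3.1, ?_⟩
    intro a b ha hb
    rw [hq3.2.1] at ha
    rw [hq3.2.2] at hb
    obtain rfl : c i1 = a := by simpa using ha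
    obtain rfl : u1 = b := by simpa using hb
    exact ha1.symm
  have hin : ∀ x ∈ l', x ∈ P ∪ nbr X.G X.A P := by
    have key : ∀ x, x ∈ X.A → (∃ p ∈ P, X.G.Adj p x) → x ∈ P ∪ nbr X.G X.A P := by
      intro x hx hp
      by_cases h : x ∈ P
      · exact Finset.mem_union_left _ h
      · exact Finset.mem_union_right _ (mem_nbr.mpr ⟨hx, h, hp⟩)
    intro x hx
    rw [hl', List.mem_append, List.mem_append, List.mem_append, List.mem_reverse,
      List.mem_reverse] at hx
    rcases hx with ((hx | hx) | hx) | hx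
    · obtain ⟨i, h5, h6, rfl⟩ := mem_sg.mp hx
      rcases Nat.eq_or_lt_of_le h5 with h7 | h7
      · subst h7
        obtain ⟨v, hv, hva⟩ := hA1
        exact key _ (hG.sub _ (by omega)) ⟨v, (hmP v).mpr (Or.inl hv), hva⟩
      · rcases Nat.eq_or_lt_of_le h6 with h8 | h8
        · subst h8
          obtain ⟨v, hv, hva⟩ := hA2
          exact key _ (hG.sub _ (by omega)) ⟨v, (hmP v).mpr (Or.inr (Or.inl hv)), hva⟩
        · exact Finset.mem_union_left _ ((hmP _).mpr (Or.inr (Or.inr (Or.inl (hK3c i h7 h8)))))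
    · exact Finset.mem_union_left _ ((hmP _).mpr (Or.inr (Or.inl (hR2K x hx))))
    · obtain ⟨i, h5, h6, rfl⟩ := mem_sg.mp hx
      rcases Nat.eq_or_lt_of_le h5 with h7 | h7
      · subst h7
        obtain ⟨v, hv, hva⟩ := hB1
        exact key _ (hG.sub _ (by omega)) ⟨v, (hmP v).mpr (Or.inl hv), hva⟩
      · rcases Nat.eq_or_lt_of_le h6 with h8 | h8
        · subst h8
          obtain ⟨v, hv, hva⟩ := hB2
          exact key _ (hG.sub _ (by omega)) ⟨v, (hmP v).mpr (Or.inr (Or.inl hv)), hva⟩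
        · exact Finset.mem_union_left _ ((hmP _).mpr (Or.inr (Or.inr (Or.inr (hK4c i h7 h8)))))
    · exact Finset.mem_union_left _ ((hmP _).mpr (Or.inl (hR1K x hx)))
  have h5 := (hOk.reg P hPA hPne hPB hPneA).2 l' hcyc hin
  have h6 := hS.par.t l'.length (h5.trans hPn)
  omega

end Pool.Agent.W33.CHF
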